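import Mathlib
import Pool.Agent.H79.TD.Stm6

/-!
# Project SV: NCL (nonclassical components of small degree are lines)
-/

set_option autoImplicit false

open MvPolynomial Module Pool.Agent.H77.TF Pool.Agent.H79.TD

namespace Pool.Agent.H64.TD

variable {K : Type} [Field K] [Fintype K]

theorem TH_add (f g : MvPolynomial (Fin 3) K) : TH (f + g) = TH f + TH g := by
  simp only [TH, map_add, mul_add, Finset.sum_add_distrib]

theorem TH_mul (f g : MvPolynomial (Fin 3) K) : TH (f * g) = TH f * g + f * TH g := by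
  simp only [TH, Finset.sum_mul, Finset.mul_sum, ← Finset.sum_add_distrib]
  refine Finset.sum_congr rfl fun i _ => ?_
  rw [Derivation.leibniz]
  simp only [smul_eq_mul]
  ring

theorem TH_C (c : K) : TH (C c : MvPolynomial (Fin 3) K) = 0 := by
  simp [TH]

theorem TH_X (j : Fin 3) : TH (X j : MvPolynomial (Fin 3) K) = X j ^ Fintype.card K := by
  simp only [TH, pderiv_X]
  rw [Finset.sum_eq_single j]
  · simp
  · intro i _ hij
    simp [Pi.single_apply, hij, hij.symm]
  · intro h
    exact absurd (Finset.mem_univ j) h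

theorem card_zero : (Fintype.card K : MvPolynomial (Fin 3) K) = 0 := by
  have h : ((Fintype.card K : K)) = 0 := FiniteField.cast_card_eq_zero K
  rw [← map_natCast (C : K →+* MvPolynomial (Fin 3) K), h, map_zero]

theorem TH_Xq (j : Fin 3) : TH (X j ^ Fintype.card K : MvPolynomial (Fin 3) K) = 0 := by
  simp only [TH, Derivation.leibniz_pow]
  refine Finset.sum_eq_zero fun i _ => ?_
  rw [← Nat.cast_smul_eq_nsmul (MvPolynomial (Fin 3) K), card_zero, zero_smul, mul_zero]

/-- the Taylor coefficients -/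
noncomputable def Phi (K : Type) [Field K] [Fintype K] :
    MvPolynomial (Fin 3) K →ₐ[K] Polynomial (MvPolynomial (Fin 3) K) :=
  aeval fun i => Polynomial.C (X i) + Polynomial.C (X i ^ Fintype.card K) * Polynomial.X

theorem coeff_step (f : MvPolynomial (Fin 3) K) (j : Fin 3) (k : ℕ) :
    (Phi K (f * X j)).coeff (k + 1) = (Phi K f).coeff (k + 1) * X j +
      (Phi K f).coeff k * X j ^ Fintype.card K := by
  have h : Phi K (X j) = Polynomial.C (X j) + Polynomial.C (X j ^ Fintype.card K) * Polynomial.X := by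
    simp [Phi]
  rw [map_mul, h, mul_add, Polynomial.coeff_add, Polynomial.coeff_mul_C, ← mul_assoc,
    Polynomial.coeff_mul_X, Polynomial.coeff_mul_C]

theorem coeff_step0 (f : MvPolynomial (Fin 3) K) (j : Fin 3) :
    (Phi K (f * X j)).coeff 0 = (Phi K f).coeff 0 * X j := by
  have h : Phi K (X j) = Polynomial.C (X j) + Polynomial.C (X j ^ Fintype.card K) * Polynomial.X := by
    simp [Phi]
  rw [map_mul, h, mul_add, Polynomial.coeff_add, Polynomial.coeff_mul_C, ← mul_assoc,
    Polynomial.mul_coeff_zero, Polynomial.coeff_X_zero, mul_zero, add_zero]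

theorem coeff_C' (c : K) (k : ℕ) : (Phi K (C c)).coeff (k + 1) = 0 := by
  have h : Phi K (C c) = Polynomial.C (C c) := by
    simp only [Phi, aeval_C]
    rfl
  rw [h, Polynomial.coeff_C_succ]

theorem coeff_zero' (f : MvPolynomial (Fin 3) K) : (Phi K f).coeff 0 = f := by
  induction f using MvPolynomial.induction_on with
  | C c =>
    have h : Phi K (C c) = Polynomial.C (C c) := by
      simp only [Phi, aeval_C]
      rfl
    rw [h, Polynomial.coeff_C_zero]
  | add p p' h h' => rw [map_add, Polynomial.coeff_add, h, h']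
  | mul_X p j h => rw [coeff_step0, h]

theorem coeff_succ (f : MvPolynomial (Fin 3) K) (k : ℕ) :
    TH ((Phi K f).coeff k) = ((k + 1 : ℕ) : MvPolynomial (Fin 3) K) * (Phi K f).coeff (k + 1) := by
  induction f using MvPolynomial.induction_on generalizing k with
  | C c =>
    rw [coeff_C', mul_zero]
    rcases k with _ | k
    · rw [coeff_zero', TH_C]
    · rw [coeff_C']
      simp [TH]
  | add p p' h h' =>
    rw [map_add, Polynomial.coeff_add, Polynomial.coeff_add, TH_add, h, h']
    ring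
  | mul_X p j h =>
    rcases k with _ | k
    · rw [coeff_step0, coeff_step, TH_mul, TH_X, h 0]
      push_cast
      ring
    · rw [coeff_step, coeff_step, TH_add, TH_mul, TH_mul, TH_X, TH_Xq, h (k + 1), h k]
      push_cast
      ring

theorem dvd_coeff (G : MvPolynomial (Fin 3) K) (d : ℕ)
    (hd : ∀ k : ℕ, 0 < k → k ≤ d → (k : K) ≠ 0) (hG : G ∣ TH G) (k : ℕ) (hk : k ≤ d) :
    G ∣ (Phi K G).coeff k := by
  induction k with
  | zero => rw [coeff_zero']
  | succ k ih =>
    obtain ⟨h, hh⟩ := ih (by omega)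
    have h1 := coeff_succ G k
    rw [hh, TH_mul] at h1
    have h2 : G ∣ ((k + 1 : ℕ) : MvPolynomial (Fin 3) K) * (Phi K G).coeff (k + 1) := by
      rw [← h1]
      exact dvd_add (hG.mul_right _) (dvd_mul_right _ _)
    have h3 := hd (k + 1) (by omega) hk
    have h4 : (Phi K G).coeff (k + 1) = C (((k + 1 : ℕ) : K)⁻¹) *
        (((k + 1 : ℕ) : MvPolynomial (Fin 3) K) * (Phi K G).coeff (k + 1)) := by
      have h5 : ((k + 1 : ℕ) : MvPolynomial (Fin 3) K) = C ((k + 1 : ℕ) : K) := by simp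
      rw [h5, ← mul_assoc, ← C_mul, inv_mul_cancel₀ h3, C_1, one_mul]
    rw [h4]
    exact h2.mul_left _

theorem coeff_big (G : MvPolynomial (Fin 3) K) (d : ℕ) (hG : G.IsHomogeneous d) (k : ℕ) (hk : d < k) :
    (Phi K G).coeff k = 0 := by
  apply Polynomial.coeff_eq_zero_of_natDegree_lt
  refine lt_of_le_of_lt ?_ hk
  have h1 : Phi K G = ∑ m ∈ G.support, Polynomial.C (C (coeff m G)) * ∏ i ∈ m.support,
      (Polynomial.C (X i) + Polynomial.C (X i ^ Fintype.card K) * Polynomial.X) ^ m i := by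
    conv_lhs => rw [Phi, aeval_def, eval₂_eq]
    rfl
  rw [h1]
  refine Polynomial.natDegree_sum_le_of_forall_le _ _ fun m hm => ?_
  refine (Polynomial.natDegree_C_mul_le _ _).trans ?_
  refine (Polynomial.natDegree_prod_le _ _).trans ?_
  have h2 : ∑ i ∈ m.support, m i = d := by
    have := hG (mem_support_iff.1 hm)
    rw [← this]
    simp [Finsupp.weight_apply, Finsupp.sum]
  rw [← h2]
  refine Finset.sum_le_sum fun i _ => ?_
  refine Polynomial.natDegree_pow_le.trans ?_
  have h3 : (Polynomial.C (X i : MvPolynomial (Fin 3) K) +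
      Polynomial.C (X i ^ Fintype.card K) * Polynomial.X).natDegree ≤ 1 := by
    refine (Polynomial.natDegree_add_le _ _).trans ?_
    rw [Polynomial.natDegree_C]
    refine max_le (by omega) ?_
    exact (Polynomial.natDegree_C_mul_le _ _).trans Polynomial.natDegree_X_le
  calc m i * _ ≤ m i * 1 := Nat.mul_le_mul_left _ h3
    _ = m i := mul_one _

theorem eval_Phi {L : Type} [Field L] [Algebra K L] (f : MvPolynomial (Fin 3) K) (r : Fin 3 → L) (s : L) :
    aeval (fun i => r i + s * r i ^ Fintype.card K) f =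
      (Phi K f).eval₂ ((aeval r : MvPolynomial (Fin 3) K →ₐ[K] L) : MvPolynomial (Fin 3) K →+* L) s := by
  induction f using MvPolynomial.induction_on with
  | C c =>
    have h : Phi K (C c) = Polynomial.C (C c) := by
      simp only [Phi, aeval_C]
      rfl
    rw [h, Polynomial.eval₂_C]
    simp
  | add p p' h h' => rw [map_add, map_add, Polynomial.eval₂_add, h, h']
  | mul_X p j h =>
    have h2 : Phi K (X j) = Polynomial.C (X j) + Polynomial.C (X j ^ Fintype.card K) * Polynomial.X := by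
      simp [Phi]
    rw [map_mul, map_mul, Polynomial.eval₂_mul, h, h2, aeval_X, Polynomial.eval₂_add,
      Polynomial.eval₂_mul, Polynomial.eval₂_C, Polynomial.eval₂_C, Polynomial.eval₂_X]
    simp only [RingHom.coe_coe, map_pow, aeval_X]
    ring

/-- the zeros are stable under `r ↦ r + s r ^ q` -/
theorem star {L : Type} [Field L] [Algebra K L] (G : MvPolynomial (Fin 3) K) (d : ℕ)
    (hom : G.IsHomogeneous d)
    (hd : ∀ k : ℕ, 0 < k → k ≤ d → (k : K) ≠ 0) (hG : G ∣ TH G) (r : Fin 3 → L)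
    (hr : aeval r G = 0) (s : L) : aeval (fun i => r i + s * r i ^ Fintype.card K) G = 0 := by
  rw [eval_Phi, Polynomial.eval₂_eq_sum_range]
  refine Finset.sum_eq_zero fun k _ => ?_
  rcases le_or_gt k d with hk | hk
  · obtain ⟨h, hh⟩ := dvd_coeff G d hd hG k hk
    rw [hh]
    simp [hr]
  · rw [coeff_big G d hom k hk]
    simp

theorem scale {L : Type} [Field L] [Algebra K L] (G : MvPolynomial (Fin 3) K) (d : ℕ)
    (hom : G.IsHomogeneous d) (r : Fin 3 → L) (t : L) :
    aeval (fun i => t * r i) G = t ^ d * aeval r G := by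
  rw [aeval_def, eval₂_eq, aeval_def, eval₂_eq, Finset.mul_sum]
  refine Finset.sum_congr rfl fun m hm => ?_
  have h2 : ∑ i ∈ m.support, m i = d := by
    have := hom (mem_support_iff.1 hm)
    rw [← this]
    simp [Finsupp.weight_apply, Finsupp.sum]
  simp only [mul_pow]
  rw [Finset.prod_mul_distrib, Finset.prod_pow_eq_pow_sum, h2]
  ring

theorem ratl {L : Type} [Field L] [Algebra K L] (t : L) (ht : t ^ Fintype.card K = t) :
    ∃ κ : K, algebraMap K L κ = t := by
  classical
  by_contra hcon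
  push Not at hcon
  have hq := Fintype.one_lt_card (α := K)
  obtain ⟨P, hP⟩ : ∃ P : Polynomial L, P = Polynomial.X ^ Fintype.card K - Polynomial.X := ⟨_, rfl⟩
  have hdeg : P.natDegree = Fintype.card K := by
    rw [hP]
    exact FiniteField.X_pow_card_sub_X_natDegree_eq L hq
  have hP0 : P ≠ 0 := by
    intro h
    rw [h] at hdeg
    simp at hdeg
    omega
  have h1 := Polynomial.card_le_degree_of_subset_roots (p := P)
    (Z := insert t (Finset.univ.image (algebraMap K L))) (by
      intro x hx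
      rw [Polynomial.mem_roots hP0, Polynomial.IsRoot.def, hP]
      rw [Finset.mem_val, Finset.mem_insert, Finset.mem_image] at hx
      rcases hx with rfl | ⟨κ, _, rfl⟩
      · simp [ht]
      · simp [← map_pow, FiniteField.pow_card])
  rw [Finset.card_insert_of_notMem (by
    rw [Finset.mem_image]
    rintro ⟨κ, _, h⟩
    exact hcon κ h), Finset.card_image_of_injective _ (algebraMap K L).injective, hdeg,
    Finset.card_univ] at h1
  omega

theorem X0_dvd (f : MvPolynomial (Fin 3) K) :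
    X 0 ∣ f - aeval (![0, X 1, X 2] : Fin 3 → MvPolynomial (Fin 3) K) f := by
  induction f using MvPolynomial.induction_on with
  | C c => simp
  | add p p' h h' =>
    rw [map_add]
    have := dvd_add h h'
    convert this using 1
    ring
  | mul_X p j h =>
    rw [map_mul, aeval_X]
    have h2 : X 0 ∣ (X j : MvPolynomial (Fin 3) K) - (![0, X 1, X 2] : Fin 3 → MvPolynomial (Fin 3) K) j := by
      fin_cases j <;> simp
    have := dvd_add (h.mul_right (X j)) (h2.mul_left (aeval (![0, X 1, X 2] : Fin 3 → MvPolynomial (Fin 3) K) p))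
    convert this using 1
    ring

theorem find_c (G : MvPolynomial (Fin 3) K) (d : ℕ) (hom : G.IsHomogeneous d)
    (hd : ∀ k : ℕ, 0 < k → k ≤ d → (k : K) ≠ 0) (h0 : ¬ X 0 ∣ G) :
    ∃ c : Fin 3 → K, c 0 = 0 ∧ aeval c G ≠ 0 := by
  obtain ⟨P, hP⟩ : ∃ P : MvPolynomial (Fin 3) K,
      P = aeval (![0, X 1, X 2] : Fin 3 → MvPolynomial (Fin 3) K) G := ⟨_, rfl⟩
  have hq : d < Fintype.card K := by
    by_contra hcon
    exact hd _ Fintype.card_pos (not_lt.1 hcon) (FiniteField.cast_card_eq_zero K)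
  have hP0 : P ≠ 0 := by
    intro h
    apply h0
    have := X0_dvd G
    rwa [← hP, h, sub_zero] at this
  have hPh : P.IsHomogeneous (1 * d) := by
    rw [hP]
    refine hom.aeval _ fun i => ?_
    fin_cases i
    · exact isHomogeneous_zero _ _ _
    · exact isHomogeneous_X _ _
    · exact isHomogeneous_X _ _
  by_contra hcon
  push Not at hcon
  apply hP0
  refine MvPolynomial.eq_zero_of_eval_eq_zero (Fin 3) K P (fun v => ?_) ?_
  · have h1 := hcon ![0, v 1, v 2] rfl
    have h2 := MvPolynomial.comp_aeval_apply (f := (![0, X 1, X 2] : Fin 3 → MvPolynomial (Fin 3) K))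
      (aeval v : MvPolynomial (Fin 3) K →ₐ[K] K) G
    have h3 : (fun i => (aeval v : MvPolynomial (Fin 3) K →ₐ[K] K)
        ((![0, X 1, X 2] : Fin 3 → MvPolynomial (Fin 3) K) i)) = ![0, v 1, v 2] := by
      funext i
      fin_cases i <;> simp
    rw [h3, h1, ← hP] at h2
    rw [← MvPolynomial.coe_aeval_eq_eval]
    exact h2
  · rw [mem_restrictDegree]
    intro m hm i
    have h2 := hPh (mem_support_iff.1 hm)
    have h3 : m i ≤ Finsupp.weight 1 m := by
      rw [Finsupp.weight_apply, Finsupp.sum_fintype _ _ (by simp)]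
      simp only [Pi.one_apply, smul_eq_mul, mul_one]
      exact Finset.single_le_sum (f := fun i => m i) (fun _ _ => Nat.zero_le _) (Finset.mem_univ i)
    have h4 : Finsupp.weight 1 m = 1 * d := h2
    omega

theorem lin_of_dvd (G : MvPolynomial (Fin 3) K) (d : ℕ) (hom : G.IsHomogeneous d) (hirr : Irreducible G)
    (a : Fin 3 → K) (ha : lin a ≠ 0) (h : G ∣ lin a) : lin a ∣ G := by
  obtain ⟨h', hh⟩ := h
  have hG0 : G ≠ 0 := hirr.ne_zero
  have h0 : h' ≠ 0 := by
    rintro rfl
    exact ha (by rw [hh, mul_zero])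
  have hd1 : d ≠ 0 := by
    rintro rfl
    have h1 := hom.totalDegree hG0
    rw [totalDegree_eq_zero_iff_eq_C] at h1
    have h2 : coeff 0 G ≠ 0 := by
      intro h3
      rw [h3, C_0] at h1
      exact hG0 h1
    apply hirr.not_isUnit
    rw [h1]
    exact (isUnit_iff_ne_zero.2 h2).map C
  have h3 := totalDegree_mul_of_isDomain hG0 h0
  rw [← hh, hom.totalDegree hG0] at h3
  have h4 : (lin a).totalDegree ≤ 1 := by
    have : (lin a).IsHomogeneous 1 := IsHomogeneous.sum _ _ _ fun j _ => by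
      simpa using (isHomogeneous_C (Fin 3) (a j)).mul (isHomogeneous_X K j)
    exact this.totalDegree_le
  have h5 : h'.totalDegree = 0 := by omega
  rw [totalDegree_eq_zero_iff_eq_C] at h5
  have h6 : coeff 0 h' ≠ 0 := by
    intro h7
    rw [h7, C_0] at h5
    exact h0 h5
  refine ⟨C (coeff 0 h')⁻¹, ?_⟩
  rw [hh, h5, coeff_C, if_pos rfl, mul_assoc, ← C_mul, mul_inv_cancel₀ h6, C_1, mul_one]

theorem field_part {L : Type} [Field L] [Algebra K L] (G : MvPolynomial (Fin 3) K) (d : ℕ)
    (hom : G.IsHomogeneous d) (hd : ∀ k : ℕ, 0 < k → k ≤ d → (k : K) ≠ 0) (hG : G ∣ TH G)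
    (c : Fin 3 → K) (hc0 : c 0 = 0) (hc : aeval c G ≠ 0) (ξ : Fin 3 → L) (hξ : aeval ξ G = 0)
    (hx0 : ξ 0 ≠ 0) : ∃ a : Fin 3 → K, a ≠ 0 ∧ aeval ξ (lin a) = 0 := by
  classical
  have hq0 : Fintype.card K ≠ 0 := Fintype.card_ne_zero
  obtain ⟨F, hF⟩ : ∃ F : L →ₐ[K] L, ∀ x, F x = x ^ Fintype.card K :=
    ⟨FiniteField.frobeniusAlgHom K L, fun x => rfl⟩
  have hK : ∀ κ : K, (algebraMap K L κ) ^ Fintype.card K = algebraMap K L κ := by
    intro κ
    rw [← map_pow, FiniteField.pow_card]
  obtain ⟨s, hs⟩ : ∃ s : L, s = -(ξ 0 / ξ 0 ^ Fintype.card K) := ⟨_, rfl⟩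
  obtain ⟨y, hy⟩ : ∃ y : Fin 3 → L, y = fun i => ξ i + s * ξ i ^ Fintype.card K := ⟨_, rfl⟩
  have hyi : ∀ i, y i = ξ i + s * ξ i ^ Fintype.card K := fun i => by rw [hy]
  have hyG : aeval y G = 0 := by
    rw [hy]
    exact star G d hom hd hG ξ hξ s
  have hxq : ξ 0 ^ Fintype.card K ≠ 0 := pow_ne_zero _ hx0
  have hy0 : y 0 = 0 := by
    rw [hyi, hs]
    field_simp
    ring
  have hpar : y 1 * y 2 ^ Fintype.card K = y 2 * y 1 ^ Fintype.card K := by
    by_contra hne
    obtain ⟨k1, hk1⟩ : ∃ k1 : L, k1 = algebraMap K L (c 1) := ⟨_, rfl⟩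
    obtain ⟨k2, hk2⟩ : ∃ k2 : L, k2 = algebraMap K L (c 2) := ⟨_, rfl⟩
    obtain ⟨D, hDd⟩ : ∃ D : L, D = y 1 * y 2 ^ Fintype.card K - y 2 * y 1 ^ Fintype.card K := ⟨_, rfl⟩
    have hD : D ≠ 0 := by
      rw [hDd]
      exact sub_ne_zero.2 hne
    have hcc : aeval (fun i => algebraMap K L (c i)) G ≠ 0 := by
      have h1 := MvPolynomial.aeval_algebraMap_apply L c G
      have h2 : aeval (fun i => algebraMap K L (c i)) G = algebraMap K L (aeval c G) := h1
      rw [h2]
      intro h3
      exact hc ((algebraMap K L).injective (by rw [h3, map_zero]))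
    obtain ⟨α, hα⟩ : ∃ α : L, α = (k1 * y 2 ^ Fintype.card K - k2 * y 1 ^ Fintype.card K) / D := ⟨_, rfl⟩
    obtain ⟨β, hβ⟩ : ∃ β : L, β = (k2 * y 1 - k1 * y 2) / D := ⟨_, rfl⟩
    have e1 : α * y 1 + β * y 1 ^ Fintype.card K = k1 := by
      rw [hα, hβ, div_mul_eq_mul_div, div_mul_eq_mul_div, ← add_div, div_eq_iff hD, hDd]
      ring
    have e2 : α * y 2 + β * y 2 ^ Fintype.card K = k2 := by
      rw [hα, hβ, div_mul_eq_mul_div, div_mul_eq_mul_div, ← add_div, div_eq_iff hD, hDd]
      ring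
    have hα0 : α ≠ 0 := by
      intro h
      rw [hα, div_eq_zero_iff, or_iff_left hD, sub_eq_zero] at h
      have h1 : F (k1 * y 2 - k2 * y 1) = 0 := by
        rw [map_sub, map_mul, map_mul, hF, hF, hF, hF, hk1, hk2, hK, hK, ← hk1, ← hk2, h, sub_self]
      rw [hF] at h1
      have h2 : k1 * y 2 = k2 * y 1 := sub_eq_zero.1 (pow_eq_zero_iff hq0 |>.1 h1)
      have h3 : k1 * D = 0 := by
        rw [hDd]
        linear_combination y 1 * h - y 1 ^ Fintype.card K * h2
      have h4 : k2 * D = 0 := by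
        rw [hDd]
        linear_combination (-(y 2 ^ Fintype.card K)) * h2 + y 2 * h
      have h5 : k1 = 0 := (mul_eq_zero.1 h3).resolve_right hD
      have h6 : k2 = 0 := (mul_eq_zero.1 h4).resolve_right hD
      apply hcc
      have h7 : (fun i => algebraMap K L (c i)) = fun i => (0 : L) * y i := by
        funext i
        fin_cases i
        · simp [hc0]
        · simp [← hk1, h5]
        · simp [← hk2, h6]
      rw [h7, scale G d hom, hyG, mul_zero]
    apply hcc
    have h7 : (fun i => algebraMap K L (c i)) = fun i => α * (y i + (β / α) * y i ^ Fintype.card K) := by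
      funext i
      fin_cases i
      · simp [hc0, hy0, hq0]
      · change algebraMap K L (c 1) = α * (y 1 + (β / α) * y 1 ^ Fintype.card K)
        rw [← hk1, ← e1]
        field_simp
      · change algebraMap K L (c 2) = α * (y 2 + (β / α) * y 2 ^ Fintype.card K)
        rw [← hk2, ← e2]
        field_simp
    rw [h7, scale G d hom, star G d hom hd hG y hyG, mul_zero]
  obtain ⟨κ1, κ2, hκ, hκy⟩ : ∃ κ1 κ2 : K, (κ1 ≠ 0 ∨ κ2 ≠ 0) ∧
      algebraMap K L κ1 * y 1 + algebraMap K L κ2 * y 2 = 0 := by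
    by_cases h1 : y 1 = 0
    · exact ⟨1, 0, Or.inl one_ne_zero, by rw [h1]; simp⟩
    · obtain ⟨κ, hκ⟩ := ratl (K := K) (y 2 / y 1) (by
        rw [div_pow, div_eq_div_iff (pow_ne_zero _ h1) h1]
        linear_combination hpar)
      refine ⟨-κ, 1, Or.inr one_ne_zero, ?_⟩
      rw [map_neg, hκ, map_one]
      field_simp
      ring
  obtain ⟨l, hl⟩ : ∃ l : L, l = algebraMap K L κ1 * ξ 1 + algebraMap K L κ2 * ξ 2 := ⟨_, rfl⟩
  have hlq : l ^ Fintype.card K = algebraMap K L κ1 * ξ 1 ^ Fintype.card K +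
      algebraMap K L κ2 * ξ 2 ^ Fintype.card K := by
    rw [← hF, hl, map_add, map_mul, map_mul, hF, hF, hF, hF, hK, hK]
  have hls : l + s * l ^ Fintype.card K = 0 := by
    rw [hlq, hl]
    rw [hyi, hyi] at hκy
    linear_combination hκy
  obtain ⟨κ0, hκ0⟩ := ratl (K := K) (l / ξ 0) (by
    rw [div_pow]
    rw [hs] at hls
    field_simp
    field_simp at hls
    linear_combination (-1 : L) * hls)
  refine ⟨![-κ0, κ1, κ2], ?_, ?_⟩
  · intro h
    rcases hκ with h1 | h1
    · exact h1 (congrFun h 1)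
    · exact h1 (congrFun h 2)
  · simp only [lin, Fin.sum_univ_three, map_add, map_mul, aeval_X, aeval_C]
    change algebraMap K L (-κ0) * ξ 0 + algebraMap K L κ1 * ξ 1 + algebraMap K L κ2 * ξ 2 = 0
    rw [map_neg, hκ0]
    have h8 : -(l / ξ 0) * ξ 0 = -l := by field_simp
    rw [h8, hl]
    ring

theorem core (G : MvPolynomial (Fin 3) K) (d : ℕ) (hirr : Irreducible G) (hom : G.IsHomogeneous d)
    (hd : ∀ k : ℕ, 0 < k → k ≤ d → (k : K) ≠ 0) (hG : G ∣ TH G) (h0 : ¬ X 0 ∣ G)
    (h0' : ¬ G ∣ X 0) : ∃ a : Fin 3 → K, a ≠ 0 ∧ G ∣ lin a := by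
  classical
  have hp : Prime G := hirr.prime
  have hI : (Ideal.span {G}).IsPrime := (Ideal.span_singleton_prime hp.ne_zero).2 hp
  obtain ⟨c, hc0, hc⟩ := find_c G d hom hd h0
  let R := MvPolynomial (Fin 3) K ⧸ Ideal.span {G}
  let L := FractionRing R
  let ξ : Fin 3 → L := fun i => algebraMap R L (Ideal.Quotient.mk (Ideal.span {G}) (X i))
  have hξ' : ∀ P : MvPolynomial (Fin 3) K, aeval ξ P = algebraMap R L (Ideal.Quotient.mk (Ideal.span {G}) P) := by
    intro P
    induction P using MvPolynomial.induction_on with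
    | C c =>
      rw [aeval_C]
      exact (IsScalarTower.algebraMap_apply K R L c).trans rfl
    | add p p' h h' => rw [map_add, map_add, map_add, h, h']
    | mul_X p j h => rw [map_mul, map_mul, map_mul, h, aeval_X]
  have hξ : ∀ P, aeval ξ P = 0 → G ∣ P := by
    intro P h
    rw [hξ'] at h
    have h1 : Ideal.Quotient.mk (Ideal.span {G}) P = 0 :=
      (IsFractionRing.injective R L) (by rw [h, map_zero])
    rwa [Ideal.Quotient.eq_zero_iff_mem, Ideal.mem_span_singleton] at h1
  have hG0 : aeval ξ G = 0 := by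
    rw [hξ', Ideal.Quotient.eq_zero_iff_mem.2 (Ideal.mem_span_singleton_self G), map_zero]
  have hx0 : ξ 0 ≠ 0 := fun h => h0' (hξ (X 0) (by rw [aeval_X]; exact h))
  obtain ⟨a, ha, h⟩ := field_part G d hom hd hG c hc0 hc ξ hG0 hx0
  exact ⟨a, ha, hξ _ h⟩

theorem lin_ne' {a : Fin 3 → K} (ha : a ≠ 0) : lin a ≠ 0 := by
  intro h
  apply ha
  funext j
  have h1 := congrArg (MvPolynomial.eval (Pi.single j 1 : Fin 3 → K)) h
  simp only [lin, map_sum, map_mul, eval_C, eval_X, map_zero] at h1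
  rw [Finset.sum_eq_single j] at h1
  · simpa using h1
  · intro i _ hij
    simp [Pi.single_eq_of_ne hij]
  · intro hj
    exact absurd (Finset.mem_univ j) hj

theorem t_NCL : S_NCL := by
  intro K _ _ d G hirr hom hd hG
  have hl : lin (Pi.single 0 1 : Fin 3 → K) = X 0 := by
    simp [lin, Fin.sum_univ_three]
  have hne : (Pi.single 0 1 : Fin 3 → K) ≠ 0 := by
    intro h
    have := congrFun h 0
    simp at this
  by_cases h0 : X 0 ∣ G
  · exact ⟨Pi.single 0 1, hne, by rwa [hl]⟩
  · by_cases h0' : G ∣ X 0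
    · refine ⟨Pi.single 0 1, hne, lin_of_dvd G d hom hirr _ (lin_ne' hne) (by rwa [hl])⟩
    · obtain ⟨a, ha, h⟩ := core G d hirr hom hd hG h0 h0'
      exact ⟨a, ha, lin_of_dvd G d hom hirr a (lin_ne' ha) h⟩

end Pool.Agent.H64.TD
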