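import Mathlib
import Pool.Agent.H79.TD.Stm3

/-!
# Project EX: RDC (reduction of a basis modulo almost all primes)
-/

set_option autoImplicit false

open MvPolynomial Module Pool.Agent.H77.TF Pool.Agent.H77.GR Pool.Agent.H79.TD

namespace Pool.Agent.H64.TD

/-- common denominator of one polynomial -/
theorem den1 {σ : Type} (P : MvPolynomial σ ℚ) :
    ∃ (N : ℤ) (Q : MvPolynomial σ ℤ), N ≠ 0 ∧ MvPolynomial.map (Int.castRingHom ℚ) Q = C (N : ℚ) * P := by
  induction P using MvPolynomial.induction_on with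
  | C a =>
    refine ⟨(a.den : ℤ), C a.num, by exact_mod_cast a.den_nz, ?_⟩
    rw [map_C, ← C_mul]
    congr 1
    have h := Rat.mul_den_eq_num a
    push_cast
    rw [mul_comm, h]
    simp
  | add P Q hP hQ =>
    obtain ⟨N, P', hN, hP'⟩ := hP
    obtain ⟨M, Q', hM, hQ'⟩ := hQ
    refine ⟨N * M, C M * P' + C N * Q', mul_ne_zero hN hM, ?_⟩
    rw [map_add, map_mul, map_mul, map_C, map_C, hP', hQ']
    push_cast
    simp only [eq_intCast, C_mul]
    ring
  | mul_X P i hP =>
    obtain ⟨N, P', hN, hP'⟩ := hP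
    refine ⟨N, P' * X i, hN, ?_⟩
    rw [map_mul, map_X, hP']
    ring

/-- common denominator of a finite family -/
theorem den {σ ι : Type} [Fintype ι] (P : ι → MvPolynomial σ ℚ) :
    ∃ (N : ℤ) (Q : ι → MvPolynomial σ ℤ), N ≠ 0 ∧
      ∀ i, MvPolynomial.map (Int.castRingHom ℚ) (Q i) = C (N : ℚ) * P i := by
  classical
  choose N Q hN hQ using fun i => den1 (P i)
  have h : ∀ i, ∃ d : ℤ, ∏ i, N i = N i * d := fun i => Finset.dvd_prod_of_mem N (Finset.mem_univ i)
  choose d hd using h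
  refine ⟨∏ i, N i, fun i => C (d i) * Q i, Finset.prod_ne_zero_iff.2 fun i _ => hN i, fun i => ?_⟩
  rw [map_mul, map_C, hQ, hd i]
  push_cast
  simp only [eq_intCast, C_mul]
  ring

theorem inj {σ : Type} : Function.Injective (MvPolynomial.map (σ := σ) (Int.castRingHom ℚ)) :=
  MvPolynomial.map_injective _ Int.cast_injective

theorem hom_of_map {σ : Type} {P : MvPolynomial σ ℤ} {m : ℕ}
    (h : (MvPolynomial.map (Int.castRingHom ℚ) P).IsHomogeneous m) : P.IsHomogeneous m := by
  intro d hd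
  apply h
  rw [coeff_map]
  simpa using hd

theorem map_lin {k : Type} [Field k] (a : Fin 3 → ℤ) :
    MvPolynomial.map (Int.castRingHom k) (linR a) = lin (fun j => Int.castRingHom k (a j)) := by
  simp [linR, lin]

theorem map_evl {k : Type} [Field k] (a : Fin 3 → ℤ) (v : Fin 3 → MvPolynomial (Fin 3) ℤ) :
    MvPolynomial.map (Int.castRingHom k) (evlR a v) =
      evl (fun j => Int.castRingHom k (a j)) (mapV (Int.castRingHom k) v) := by
  simp [evlR, evl, mapV]

theorem det_map {k : Type} [Field k] (V : Fin 3 → Fin 3 → MvPolynomial (Fin 3) ℤ) :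
    MvPolynomial.map (Int.castRingHom k) (Matrix.of V).det =
      (Matrix.of fun j => mapV (Int.castRingHom k) (V j)).det := by
  rw [RingHom.map_det]
  rfl

theorem det_hom {K : Type} [Field K] (w : Fin 3 → Fin 3 → MvPolynomial (Fin 3) K) (e : Fin 3 → ℕ)
    (hw : ∀ j i, (w j i).IsHomogeneous (e j)) : (Matrix.of w).det.IsHomogeneous (∑ j, e j) := by
  rw [Matrix.det_apply]
  refine IsHomogeneous.sum _ _ _ fun σ _ => ?_
  have h1 : (∏ i, Matrix.of w (σ i) i).IsHomogeneous (∑ i, e (σ i)) :=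
    IsHomogeneous.prod _ _ _ fun i _ => hw _ _
  rw [Equiv.sum_comp σ e] at h1
  rcases Int.units_eq_one_or (Equiv.Perm.sign σ) with h | h <;> rw [h]
  · rwa [one_smul]
  · rw [Units.neg_smul, one_smul]
    exact h1.neg

theorem prod_lin_hom {K : Type} [Field K] {n : ℕ} (A : Fin n → Fin 3 → K) :
    (∏ i, lin (A i)).IsHomogeneous n := by
  have h := IsHomogeneous.prod (Finset.univ : Finset (Fin n)) (fun i => lin (A i)) (fun _ => 1)
    fun i _ => ?_
  · simpa using h
  · exact IsHomogeneous.sum _ _ _ fun j _ => by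
      simpa using (isHomogeneous_C (Fin 3) (A i j)).mul (isHomogeneous_X K j)

theorem lin_ne {K : Type} [Field K] {a : Fin 3 → K} (ha : a ≠ 0) : lin a ≠ 0 := by
  intro h
  apply ha
  funext j
  have h1 := congrArg (MvPolynomial.eval (Pi.single j 1 : Fin 3 → K)) h
  simp only [lin, map_sum, map_mul, eval_C, eval_X, map_zero] at h1
  rw [Finset.sum_eq_single j] at h1
  · simpa using h1
  · intro i _ hij
    simp [Pi.single_eq_of_ne hij]
  · intro hj
    exact absurd (Finset.mem_univ j) hj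

theorem rdc (hSAC : S_SAC) (hSAI : S_SAI) : S_RDC := by
  classical
  intro n A e hS ⟨b, hb⟩
  obtain ⟨c, hc, hdet⟩ := hSAC ℚ (Fin n) (mapA (Int.castRingHom ℚ) A) hS b
  set B : Fin 3 → Fin 3 → MvPolynomial (Fin 3) ℚ :=
    fun j => (b j : Fin 3 → MvPolynomial (Fin 3) ℚ) with hB
  have hprod : (∏ i, lin (mapA (Int.castRingHom ℚ) A i)) ≠ 0 :=
    Finset.prod_ne_zero_iff.2 fun i _ => lin_ne (hS.1 i)
  have hsum : ∑ j, e j = n := by
    have h1 : (Matrix.of B).det.IsHomogeneous (∑ j, e j) := det_hom B e hb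
    have h2 : (Matrix.of B).det.IsHomogeneous n := by
      have h3 := (isHomogeneous_C (Fin 3) c).mul (prod_lin_hom (mapA (Int.castRingHom ℚ) A))
      rw [zero_add] at h3
      have h4 : (Matrix.of B).det = C c * ∏ i, lin (mapA (Int.castRingHom ℚ) A i) := hdet
      rw [h4]
      exact h3
    refine h1.inj_right h2 ?_
    have h4 : (Matrix.of B).det = C c * ∏ i, lin (mapA (Int.castRingHom ℚ) A i) := hdet
    rw [h4]
    exact mul_ne_zero (C_ne_zero.2 hc) hprod
  refine ⟨hsum, ?_⟩
  -- integral multiples of the basis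
  obtain ⟨N, V', hN, hV'⟩ := den (fun q : Fin 3 × Fin 3 => B q.1 q.2)
  set V : Fin 3 → Fin 3 → MvPolynomial (Fin 3) ℤ := fun j i => V' (j, i) with hVd
  have hV : ∀ j i, MvPolynomial.map (Int.castRingHom ℚ) (V j i) = C (N : ℚ) * B j i :=
    fun j i => hV' (j, i)
  have hVm : ∀ j, mapV (Int.castRingHom ℚ) (V j) = (C (N : ℚ) : MvPolynomial (Fin 3) ℚ) • B j := by
    intro j
    funext i
    exact hV j i
  have hVh : ∀ j i, (V j i).IsHomogeneous (e j) := fun j i => by
    apply hom_of_map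
    rw [hV]
    have h3 := (isHomogeneous_C (Fin 3) (N : ℚ)).mul (hb j i)
    rwa [zero_add] at h3
  -- the determinant
  obtain ⟨M, D, hM, hD, hMD⟩ : ∃ M D : ℤ, M ≠ 0 ∧ D ≠ 0 ∧
      C M * (Matrix.of V).det = C D * ∏ i, linR (A i) := by
    refine ⟨((N : ℚ) ^ 3 * c).den, ((N : ℚ) ^ 3 * c).num, by exact_mod_cast Rat.den_nz _,
      Rat.num_ne_zero.2 (mul_ne_zero (pow_ne_zero _ (by exact_mod_cast hN)) hc), ?_⟩
    apply inj
    rw [map_mul, map_mul, map_C, map_C, map_prod, det_map]
    have h5 : (Matrix.of fun j => mapV (Int.castRingHom ℚ) (V j)).det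
        = C ((N : ℚ) ^ 3 * c) * ∏ i, lin (mapA (Int.castRingHom ℚ) A i) := by
      have h6 : (Matrix.of fun j => mapV (Int.castRingHom ℚ) (V j)) =
          (C (N : ℚ) : MvPolynomial (Fin 3) ℚ) • Matrix.of B := by
        ext1 j i
        exact hV j i
      rw [h6, Matrix.det_smul, Fintype.card_fin]
      have h4 : (Matrix.of B).det = C c * ∏ i, lin (mapA (Int.castRingHom ℚ) A i) := hdet
      rw [h4, C_mul, C_pow]
      ring
    rw [h5]
    have h7 : ∏ i, MvPolynomial.map (Int.castRingHom ℚ) (linR (A i)) =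
        ∏ i, lin (mapA (Int.castRingHom ℚ) A i) := Finset.prod_congr rfl fun i _ => map_lin (A i)
    rw [h7, ← mul_assoc, ← C_mul]
    congr 2
    simp only [eq_intCast, Int.cast_natCast]
    exact Rat.den_mul_eq_num _
  -- divisibility
  have hG : ∀ i j, ∃ (m : ℤ) (G : MvPolynomial (Fin 3) ℤ), m ≠ 0 ∧
      C m * evlR (A i) (V j) = linR (A i) * G := by
    intro i j
    obtain ⟨G₀, hG₀⟩ := (b j).2 i
    obtain ⟨m, G, hm, hG⟩ := den1 (C (N : ℚ) * G₀)
    refine ⟨m, G, hm, inj ?_⟩
    rw [map_mul, map_mul, map_C, hG, map_evl, map_lin, hVm]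
    have h8 : evl (fun j => Int.castRingHom ℚ (A i j)) ((C (N : ℚ) : MvPolynomial (Fin 3) ℚ) • B j)
        = C (N : ℚ) * evl (mapA (Int.castRingHom ℚ) A i) (B j) := by
      simp only [evl, Pi.smul_apply, smul_eq_mul, Finset.mul_sum, mapA]
      exact Finset.sum_congr rfl fun t _ => by ring
    rw [h8, show evl (mapA (Int.castRingHom ℚ) A i) (B j) =
      lin (mapA (Int.castRingHom ℚ) A i) * G₀ from hG₀]
    show C ((m : ℤ) : ℚ) * (C (N : ℚ) * (lin (mapA (Int.castRingHom ℚ) A i) * G₀)) =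
      lin (mapA (Int.castRingHom ℚ) A i) * (C (m : ℚ) * (C (N : ℚ) * G₀))
    ring
  choose m G hm hmG using hG
  refine ⟨(M * D * ∏ i, ∏ j, m i j).natAbs, ?_, ?_⟩
  · rw [Int.natAbs_ne_zero]
    exact mul_ne_zero (mul_ne_zero hM hD)
      (Finset.prod_ne_zero_iff.2 fun i _ => Finset.prod_ne_zero_iff.2 fun j _ => hm i j)
  intro k _ p _ _ hp hSk
  have hp' : ¬ (p : ℤ) ∣ M * D * ∏ i, ∏ j, m i j := fun h => hp (Int.natCast_dvd.1 h)
  have hne : ∀ a : ℤ, a ∣ M * D * ∏ i, ∏ j, m i j → (a : k) ≠ 0 := fun a ha h0 =>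
    hp' (((CharP.intCast_eq_zero_iff k p a).1 h0).trans ha)
  have hMk : (M : k) ≠ 0 := hne M ⟨D * ∏ i, ∏ j, m i j, by ring⟩
  have hDk : (D : k) ≠ 0 := hne D ⟨M * ∏ i, ∏ j, m i j, by ring⟩
  have hmk : ∀ i j, (m i j : k) ≠ 0 := fun i j => hne _
    (((Finset.dvd_prod_of_mem (fun j => m i j) (Finset.mem_univ j)).trans
      (Finset.dvd_prod_of_mem (fun i => ∏ j, m i j) (Finset.mem_univ i))).trans
        (Dvd.intro_left _ rfl))
  obtain ⟨b', hb'⟩ := hSAI k 3 (Fin n) (mapA (Int.castRingHom k) A) hSk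
    (fun j => mapV (Int.castRingHom k) (V j)) ((D : k) / M) (div_ne_zero hDk hMk) (by
      intro j i
      refine ⟨C ((m i j : k)⁻¹) * MvPolynomial.map (Int.castRingHom k) (G i j), ?_⟩
      have h9 := congrArg (MvPolynomial.map (Int.castRingHom k)) (hmG i j)
      rw [map_mul, map_mul, map_C, map_evl, map_lin] at h9
      have h10 : (C ((m i j : k)⁻¹) : MvPolynomial (Fin 3) k) * C ((m i j : k)) = 1 := by
        rw [← C_mul, inv_mul_cancel₀ (hmk i j), C_1]
      calc evl (mapA (Int.castRingHom k) A i) (mapV (Int.castRingHom k) (V j))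
          = (C ((m i j : k)⁻¹) * C ((m i j : k))) *
            evl (mapA (Int.castRingHom k) A i) (mapV (Int.castRingHom k) (V j)) := by
            rw [h10, one_mul]
        _ = C ((m i j : k)⁻¹) * (C ((m i j : k)) *
            evl (mapA (Int.castRingHom k) A i) (mapV (Int.castRingHom k) (V j))) := by ring
        _ = C ((m i j : k)⁻¹) * (lin (mapA (Int.castRingHom k) A i) *
            MvPolynomial.map (Int.castRingHom k) (G i j)) := by
            rw [show C ((m i j : k)) * evl (mapA (Int.castRingHom k) A i)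
              (mapV (Int.castRingHom k) (V j)) = lin (mapA (Int.castRingHom k) A i) *
                MvPolynomial.map (Int.castRingHom k) (G i j) from h9]
        _ = _ := by ring) (by
      have h9 := congrArg (MvPolynomial.map (Int.castRingHom k)) hMD
      rw [map_mul, map_mul, map_C, map_C, map_prod, det_map] at h9
      have h7 : ∏ i, MvPolynomial.map (Int.castRingHom k) (linR (A i)) =
          ∏ i, lin (mapA (Int.castRingHom k) A i) := Finset.prod_congr rfl fun i _ => map_lin (A i)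
      rw [h7] at h9
      have h10 : (C ((M : k)⁻¹) : MvPolynomial (Fin 3) k) * C (M : k) = 1 := by
        rw [← C_mul, inv_mul_cancel₀ hMk, C_1]
      calc (Matrix.of fun j => mapV (Int.castRingHom k) (V j)).det
          = (C ((M : k)⁻¹) * C (M : k)) *
            (Matrix.of fun j => mapV (Int.castRingHom k) (V j)).det := by rw [h10, one_mul]
        _ = C ((M : k)⁻¹) * (C (M : k) *
            (Matrix.of fun j => mapV (Int.castRingHom k) (V j)).det) := by ring
        _ = C ((M : k)⁻¹) * (C (D : k) * ∏ i, lin (mapA (Int.castRingHom k) A i)) := by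
            rw [show C (M : k) * (Matrix.of fun j => mapV (Int.castRingHom k) (V j)).det =
              C (D : k) * ∏ i, lin (mapA (Int.castRingHom k) A i) from h9]
        _ = _ := by
            rw [← mul_assoc, ← C_mul, div_eq_mul_inv, mul_comm ((M : k)⁻¹)])
  refine ⟨b', fun j i => ?_⟩
  rw [hb']
  exact (hVh j i).map _

end Pool.Agent.H64.TD
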